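import Mathlib

namespace Pool.Agent.Results.MP_8d002f_nt.AllSolvable

/-- the `r`-th `k`-gonal number -/
def P (k r : ℕ) : ℚ := (1 / 2) * r * (((k : ℚ) - 2) * r - ((k : ℚ) - 4))

/-- For each `k ∈ {7, 14, 37}` the equation has a solution in positive integers. -/
theorem result : ∀ k ∈ ({7, 14, 37} : Finset ℕ), ∃ a d r : ℕ, 1 ≤ a ∧ 1 ≤ d ∧ 1 ≤ r ∧
    ((a * (a + d) * (a + 2 * d) * (a + 3 * d) : ℕ) : ℚ) = P k r := by
  intro k hk
  simp only [Finset.mem_insert, Finset.mem_singleton] at hk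
  rcases hk with rfl | rfl | rfl
  · exact ⟨18, 1, 240, by norm_num, by norm_num, by norm_num, by norm_num [P]⟩
  · exact ⟨5, 10, 105, by norm_num, by norm_num, by norm_num, by norm_num [P]⟩
  · exact ⟨69, 748, 107985, by norm_num, by norm_num, by norm_num, by norm_num [P]⟩

end Pool.Agent.Results.MP_8d002f_nt.AllSolvable
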